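import Pool.Agent.TH444.TW.ClsDef

/-!
# A class of homomorphisms with norm-one kernels

`Wr G n` is the wreath product `G ≀ S_n = (Fin n → G) ⋊ Perm (Fin n)`; its elements are pairs
`(f, σ)`. `NormOne G n` is the subgroup of all `(f, σ)` with `∏ [f i] = 1` in the abelianization
of `G`.

`Steps K` is the smallest class of homomorphisms `p : W' → W` of groups which
* contains the class `Cls K` of the file `Pool/Agent/TH444/TW/ClsDef.lean`,
* contains the projections `(NormOne G n)^k ⋊ W → W`, where `G` is any finite group,
  `n ≥ ((3 |G| + 2)!)^3`, and `W` acts through a homomorphism `W → Aut(G) ≀ S_k`,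
* is closed under composition, and under quotients (if `p ∘ q` is in the class and `q` is
  surjective, then `p` is in the class).
-/

set_option autoImplicit false

open Pool.Agent.H391R2 (Wr)
open Pool.Agent.TH444.TW (Cls twist)

namespace Pool.Agent.H789.NK

theorem prod_mul {G : Type} [Group G] {n : ℕ} (a b : Wr G n) :
    ∏ i, Abelianization.of ((a * b).left i) =
      (∏ i, Abelianization.of (a.left i)) * ∏ i, Abelianization.of (b.left i) := by
  have h1 : ∀ i, (a * b).left i = a.left i * b.left (a.right⁻¹ i) := fun i => rfl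
  simp only [h1, map_mul, Finset.prod_mul_distrib]
  congr 1
  exact Equiv.prod_comp a.right⁻¹ (fun i => Abelianization.of (b.left i))

theorem prod_one (G : Type) [Group G] (n : ℕ) :
    ∏ i, Abelianization.of ((1 : Wr G n).left i) = 1 := by
  refine Finset.prod_eq_one fun i _ => ?_
  rw [SemidirectProduct.one_left, Pi.one_apply, map_one]

theorem prod_mul_mem {G : Type} [Group G] {n : ℕ} {a b : Wr G n}
    (ha : ∏ i, Abelianization.of (a.left i) = 1) (hb : ∏ i, Abelianization.of (b.left i) = 1) :
    ∏ i, Abelianization.of ((a * b).left i) = 1 := by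
  rw [prod_mul, ha, hb, mul_one]

theorem prod_inv_mem {G : Type} [Group G] {n : ℕ} {a : Wr G n}
    (ha : ∏ i, Abelianization.of (a.left i) = 1) :
    ∏ i, Abelianization.of ((a⁻¹).left i) = 1 := by
  have h1 := prod_mul a a⁻¹
  rw [mul_inv_cancel, ha, one_mul] at h1
  rw [← h1]
  exact prod_one G n

/-- The norm-one subgroup of `G ≀ S_n`: all `(f, σ)` with `∏ [f i] = 1` in the abelianization
of `G`. -/
def NormOne (G : Type) [Group G] (n : ℕ) : Subgroup (Wr G n) where
  carrier := {x | ∏ i, Abelianization.of (x.left i) = 1}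
  mul_mem' := prod_mul_mem
  one_mem' := prod_one G n
  inv_mem' := prod_inv_mem

theorem mem_normOne {G : Type} [Group G] {n : ℕ} (x : Wr G n) :
    x ∈ NormOne G n ↔ ∏ i, Abelianization.of (x.left i) = 1 := Iff.rfl

theorem twist_mem {G : Type} [Group G] {n : ℕ} (c : MulAut G) (y : NormOne G n) :
    twist c y.1 ∈ NormOne G n := by
  have hy := y.2
  rw [mem_normOne] at hy ⊢
  have h1 := congrArg (Abelianization.map (c : G →* G)) hy
  rw [map_prod, map_one] at h1
  refine Eq.trans (Finset.prod_congr rfl fun i _ => ?_) h1
  rw [Abelianization.map_of]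
  rfl

/-- The norm-one subgroup of `G ≀ S_n`, as a group. -/
def NGrp (G : Type) [Group G] (n : ℕ) : Type := NormOne G n

/-- Its group structure. -/
instance instNGrp (G : Type) [Group G] (n : ℕ) : Group (NGrp G n) :=
  inferInstanceAs (Group (NormOne G n))

/-- The direct power of `k` copies of the norm-one subgroup of `G ≀ S_n`. -/
def NPow (G : Type) [Group G] (n k : ℕ) : Type := Fin k → NGrp G n

/-- Its group structure. -/
instance instNPow (G : Type) [Group G] (n k : ℕ) : Group (NPow G n k) :=
  inferInstanceAs (Group (Fin k → NGrp G n))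

/-- The group `Aut(G) ≀ S_k`. -/
def AutWr (G : Type) [Group G] (k : ℕ) : Type := Wr (MulAut G) k

/-- Its group structure. -/
instance instAutWr (G : Type) [Group G] (k : ℕ) : Group (AutWr G k) :=
  inferInstanceAs (Group (Wr (MulAut G) k))

/-- An automorphism `c` of `G` is applied to the `n` entries in `G` of an element of the norm-one
subgroup of `G ≀ S_n`. -/
def twistN {G : Type} [Group G] {n : ℕ} (c : MulAut G) (y : NGrp G n) : NGrp G n :=
  ⟨twist c y.1, twist_mem c y⟩

/-- The element `a = (c, π)` of `Aut(G) ≀ S_k` acts by `x ↦ (c_i (x_(π⁻¹ i)))_i` on the power of `k`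
copies of the norm-one subgroup. -/
def actPow {G : Type} [Group G] {n k : ℕ} (a : AutWr G k) (x : NPow G n k) : NPow G n k :=
  fun i => twistN (SemidirectProduct.left a i) (x ((SemidirectProduct.right a)⁻¹ i))

/-- `p : W' → W` is the projection of a semidirect product `N^k ⋊ W`, `N` the norm-one subgroup of
`G ≀ S_n`, where `W` acts through a homomorphism `ψ : W → Aut(G) ≀ S_k`: there are an isomorphism
`ι` of `N^k` onto the kernel of `p` and a homomorphic section `s` of `p`, and `s w` acts on the
kernel as `ψ w`. -/
def IsNormOnePower (G : Type) [Group G] (n : ℕ) {W W' : Type} [Group W] [Group W']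
    (p : W' →* W) : Prop :=
  ∃ (k : ℕ) (ψ : W →* AutWr G k) (ι : NPow G n k →* W') (s : W →* W'),
    Function.Injective ι ∧ ι.range = p.ker ∧ (∀ w, p (s w) = w) ∧
    ∀ w x, s w * ι x = ι (actPow (ψ w) x) * s w

/-- The class of homomorphisms. -/
inductive Steps (K : Type) [Field K] : ∀ {W W' : Type} [Group W] [Group W'], (W' →* W) → Prop
  /-- the class `Cls K` -/
  | old {W W' : Type} [Group W] [Group W'] (p : W' →* W) (hp : Cls K p) : Steps K p
  /-- `(NormOne G n)^k ⋊ W → W` -/
  | normOne {W W' : Type} [Group W] [Group W'] (p : W' →* W) (G : Type) [Group G] [Finite G]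
      (n : ℕ) (hn : ((3 * Nat.card G + 2).factorial) ^ 3 ≤ n) (hp : IsNormOnePower G n p) :
      Steps K p
  /-- compositions -/
  | comp {W W' W'' : Type} [Group W] [Group W'] [Group W''] (p : W' →* W) (q : W'' →* W')
      (hp : Steps K p) (hq : Steps K q) : Steps K (p.comp q)
  /-- quotients -/
  | quot {W W' W'' : Type} [Group W] [Group W'] [Group W''] (p : W' →* W) (q : W'' →* W')
      (hq : Function.Surjective q) (hpq : Steps K (p.comp q)) : Steps K p

end Pool.Agent.H789.NK
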