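import Pool.Agent.R367.IG.RegL
import Pool.Agent.H391R2.FnD
import Pool.Agent.H391R2.T4.Red

/-!
# Norm-one groups as kernels of regular extensions
-/

set_option autoImplicit false

namespace Pool.Agent.H789.NK

open Pool.Agent.H391R2 Pool.Agent.H391R2.T4
open Pool.Agent.R367.IG (NO mem_NO)

theorem wrMap_ker {G H : Type} [Group G] [Group H] (f : G →* H) (n : ℕ) (x : Wr G n)
    (hx : x ∈ (wcls G n).ker) : wrMap f n x ∈ (wcls H n).ker := by
  rw [MonoidHom.mem_ker, wcls_apply] at hx ⊢
  have h1 := congrArg (Abelianization.map f) hx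
  rw [map_prod, map_one] at h1
  refine Eq.trans (Finset.prod_congr rfl fun i _ => ?_) h1
  rw [Abelianization.map_of]
  rfl

/-- The projection of the norm-one subgroup. -/
def noProj {Γ G : Type} [Group Γ] [Group G] (φ : Γ →* MulAut G) (n : ℕ) : NO φ n →* Γ :=
  (SemidirectProduct.rightHom : EG φ n →* Γ).comp (NO φ n).subtype

/-- The norm-one subgroup of the twisted wreath product is the group of a regular extension. -/
theorem reg_kerL (K L : Type) [Field K] [CharZero K] [Field L] [Algebra K L]
    [FiniteDimensional K L] [IsGalois K L] (G : Type) [Group G] [Finite G]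
    (φ : (L ≃ₐ[K] L) →* MulAut G) :
    ∀ n ≥ ((3 * Nat.card G + 2).factorial) ^ 3, RegSol K L (NO φ n) (noProj φ n) := by
  classical
  have := Fintype.ofFinite G
  let C := Multiplicative (ZMod 3)
  have hcard : 3 ≤ Fintype.card (G × C) := by
    rw [Fintype.card_prod, Fintype.card_multiplicative, ZMod.card]
    have := Fintype.card_pos (α := G)
    omega
  have hcard0 : Fintype.card (G × C) = 3 * Nat.card G := by
    rw [Fintype.card_prod, Fintype.card_multiplicative, ZMod.card, Nat.card_eq_fintype_card,
      mul_comm]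
  intro n hn
  obtain ⟨-, h⟩ := IGW.reg_kerL3 K L (G × C) hcard (phiC φ C) n (by rw [hcard0]; exact hn)
  let f : EG (phiC φ C) n →* EG φ n :=
    SemidirectProduct.map (wrMap (MonoidHom.fst G C) n) (MonoidHom.id _)
    (fun ρ => by
      apply MonoidHom.ext
      intro x
      apply SemidirectProduct.ext
      · funext i
        rfl
      · rfl)
  let g : EG φ n →* EG (phiC φ C) n :=
    SemidirectProduct.map (wrMap (MonoidHom.inl G C) n) (MonoidHom.id _)
    (fun ρ => by
      apply MonoidHom.ext
      intro x
      apply SemidirectProduct.ext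
      · funext i
        rfl
      · rfl)
  have hf : ∀ z ∈ NO (phiC φ C) n, f z ∈ NO φ n := fun z hz => wrMap_ker _ n z.left hz
  have hg : ∀ z ∈ NO φ n, g z ∈ NO (phiC φ C) n := fun z hz => wrMap_ker _ n z.left hz
  let F : NO (phiC φ C) n →* NO φ n :=
    (f.comp (NO (phiC φ C) n).subtype).codRestrict _ (fun z => hf z z.2)
  refine RegSol.quot (L := L) (L' := L) _ _ F ?_ ?_ ?_ h
  · intro z
    refine ⟨⟨g z, hg z z.2⟩, ?_⟩
    apply Subtype.ext
    apply SemidirectProduct.ext
    · apply SemidirectProduct.ext
      · funext i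
        rfl
      · rfl
    · rfl
  · intro z
    have h1 : ∀ ρ : L ≃ₐ[K] L, ρ.restrictNormal L = ρ := by
      intro ρ
      apply AlgEquiv.ext
      intro x
      exact AlgEquiv.restrictNormal_commutes ρ L x
    rw [h1]
    rfl
  · intro ρ hρ
    have h1 : ρ.restrictNormal L = ρ := by
      apply AlgEquiv.ext
      intro x
      exact AlgEquiv.restrictNormal_commutes ρ L x
    rw [h1] at hρ
    subst hρ
    exact ⟨1, map_one F, map_one _⟩

end Pool.Agent.H789.NK
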