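import Pool.Agent.TH444.TW.Fin
import Pool.Agent.H789.NK.Nrm
import Pool.Agent.H789.NK.Defs

/-!
# Solutions for the class with norm-one kernels
-/

set_option autoImplicit false

namespace Pool.Agent.H789.NK

open Pool.Agent.H391R2 Pool.Agent.H391R2.T4
open Pool.Agent.R367.IG (NO mem_NO)
open Pool.Agent.TH444.TW
open Pool.Agent.TH15.IGP (StepSol Lim)

/-- The action of `Aut G` on the norm-one subgroup. -/
def noAct (G : Type) [Group G] (n : ℕ) : MulAut G →* MulAut (NormOne G n) where
  toFun c :=
    { toFun := twistN c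
      invFun := twistN c⁻¹
      left_inv := fun y => by
        apply Subtype.ext
        apply SemidirectProduct.ext
        · funext i
          change c⁻¹ (c (y.1.left i)) = y.1.left i
          exact MulAut.inv_apply_self G c _
        · rfl
      right_inv := fun y => by
        apply Subtype.ext
        apply SemidirectProduct.ext
        · funext i
          change c (c⁻¹ (y.1.left i)) = y.1.left i
          exact MulAut.apply_inv_self G c _
        · rfl
      map_mul' := fun a b => by
        apply Subtype.ext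
        apply SemidirectProduct.ext
        · funext i
          change c (a.1.left i * b.1.left (a.1.right⁻¹ i)) = _
          rw [map_mul]
          rfl
        · rfl }
  map_one' := by
    apply MulEquiv.ext
    intro y
    rfl
  map_mul' c d := by
    apply MulEquiv.ext
    intro y
    rfl

theorem finite_normOne (G : Type) [Group G] [Finite G] (n : ℕ) : Finite (NormOne G n) := by
  have := finite_wr G n
  infer_instance

/-- The local problems. -/
theorem locK_no (k₀ : Type) [Field k₀] [CharZero k₀] (G : Type) [Group G] [Finite G] (n : ℕ)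
    (hn : ((3 * Nat.card G + 2).factorial) ^ 3 ≤ n) : LocK k₀ (noAct G n) := by
  intro K' M' _ _ _ _ _ _ _ β
  have hc : CharZero K' := charZero_of_injective_algebraMap (algebraMap k₀ K').injective
  have h := reg_kerL K' M' G β n hn
  let e : NO β n ≃* NormOne G n ⋊[(noAct G n).comp β] (M' ≃ₐ[K'] M') :=
    { toFun := fun z => ⟨⟨z.1.left, z.2⟩, z.1.right⟩
      invFun := fun z => ⟨⟨z.left.1, z.right⟩, z.left.2⟩
      left_inv := fun z => rfl
      right_inv := fun z => rfl
      map_mul' := fun a b => rfl }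
  exact regSol_equiv e _ _ (fun z => rfl) h

theorem normOne_rsk {K : Type} [Field K] [CharZero K] (G : Type) [Group G] [Finite G] (n : ℕ)
    (hn : ((3 * Nat.card G + 2).factorial) ^ 3 ≤ n) {W W' : Type} [Group W] [Finite W]
    [Group W'] (p : W' →* W) (hp : IsNormOnePower G n p) : Finite W' ∧ RSK K p := by
  have := finite_normOne G n
  obtain ⟨k, ψ', ι', s, hι', hr', hs, hc'⟩ := hp
  let ψ : W →* Wr (MulAut G) k := ψ'
  let ι : (Fin k → NormOne G n) →* W' := ι'
  have hι : Function.Injective ι := hι'
  have hr : ι.range = p.ker := hr'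
  have hc : ∀ w x, s w * ι x = ι (((powAct (noAct G n) k).comp ψ) w x) * s w := hc'
  constructor
  · exact finite_of_sd p ι fun w' hw' => by
      have h2 : w' ∈ ι.range := by rw [hr]; exact hw'
      exact h2
  · obtain ⟨e, he⟩ := exists_sdEquiv ((powAct (noAct G n) k).comp ψ) p ι s hι hr hs hc
    refine RSK.congr (pow_rsk (noAct G n) ψ (locK_no K G n hn)) e.symm fun x => ?_
    obtain ⟨y, rfl⟩ := e.surjective x
    rw [MulEquiv.symm_apply_apply]
    exact (he y).symm

theorem Steps.main {K : Type} [Field K] [CharZero K] {W W' : Type} [Group W] [Group W']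
    {p : W' →* W} (h : Steps K p) : Finite W → Finite W' ∧ RSK K p := by
  induction h with
  | old p hp =>
    intro hW
    exact hp.main hW
  | normOne p G n hn hp =>
    intro hW
    exact normOne_rsk G n hn p hp
  | comp p q hp hq ihp ihq =>
    intro hW
    obtain ⟨h1, h2⟩ := ihp hW
    obtain ⟨h3, h4⟩ := ihq h1
    exact ⟨h3, RSK.comp h2 h4⟩
  | quot p q hq hpq ih =>
    intro hW
    obtain ⟨h1, h2⟩ := ih hW
    exact ⟨Finite.of_surjective q hq, RSK.quot q hq (fun x => rfl) h2⟩

theorem Steps.finite {K : Type} [Field K] [CharZero K] {W W' : Type} [Group W] [Group W']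
    {p : W' →* W} (h : Steps K p) [hW : Finite W] : Finite W' := (h.main hW).1

theorem Steps.rsk {K : Type} [Field K] [CharZero K] {W W' : Type} [Group W] [Group W']
    {p : W' →* W} (h : Steps K p) [hW : Finite W] : RSK K p := (h.main hW).2

/-- All groups of the tower are finite. -/
theorem tower_finite {K : Type} [Field K] [CharZero K] (W : ℕ → Type) [∀ i, Group (W i)]
    (p : ∀ i, W (i + 1) →* W i) (hp : ∀ i, Steps K (p i)) (h0 : Finite (W 0)) :
    ∀ i, Finite (W i) := by
  intro i
  induction i with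
  | zero => exact h0
  | succ i ih => exact (hp i).finite

/-- Regular towers over `K(t)`. -/
theorem steps_regular (K L : Type) [Field K] [CharZero K] [Field L] [Algebra K L]
    [FiniteDimensional K L] [IsGalois K L] (W : ℕ → Type) [∀ i, Group (W i)]
    (p : ∀ i, W (i + 1) →* W i) (hp : ∀ i, Steps K (p i)) (e₀ : W 0 ≃* (L ≃ₐ[K] L)) :
    ∃ (F : Type) (_ : Field F) (_ : Algebra (RatFunc K) F) (_ : Algebra L F)
      (_ : Algebra K F) (_ : IsScalarTower K (RatFunc K) F) (_ : IsScalarTower K L F)
      (_ : IsGalois (RatFunc K) F) (γ : (F ≃ₐ[RatFunc K] F) ≃* Lim p),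
      (∀ i, IsOpen {σ : F ≃ₐ[RatFunc K] F | (γ σ).1 i = 1}) ∧
      (∀ (σ : F ≃ₐ[RatFunc K] F) (x : L),
        σ (algebraMap L F x) = algebraMap L F (e₀ ((γ σ).1 0) x)) ∧
      ∀ y : F, IsAlgebraic L y → y ∈ Set.range (algebraMap L F) := by
  have hfin := tower_finite W p hp (Finite.of_equiv _ e₀.symm.toEquiv)
  refine Pool.Agent.TH377.IG.tower_regular K L
    (fun Ω _ _ _ _ _ _ j => Pool.Agent.TH377.IG.regStep K L Ω j) W p (fun i => ?_) e₀
  intro M _ _ _ _ ε
  have := infinite_ratFunc K
  exact (hp i).rsk (RatFunc K) M ε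

/-- Towers over Hilbertian fields. -/
theorem steps_hilb {K : Type} [Field K] [CharZero K] (hK : HilbField K)
    (W : ℕ → Type) [∀ i, Group (W i)] (p : ∀ i, W (i + 1) →* W i) (hp : ∀ i, Steps K (p i))
    (L : Type) [Field L] [Algebra K L] [FiniteDimensional K L] [IsGalois K L]
    (e₀ : W 0 ≃* (L ≃ₐ[K] L)) :
    ∃ (F : Type) (_ : Field F) (_ : Algebra K F) (_ : Algebra L F) (_ : IsScalarTower K L F)
      (_ : IsGalois K F) (γ : (F ≃ₐ[K] F) ≃* Lim p),
      (∀ i, IsOpen {σ : F ≃ₐ[K] F | (γ σ).1 i = 1}) ∧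
      ∀ (σ : F ≃ₐ[K] F) (x : L),
        σ (algebraMap L F x) = algebraMap L F (e₀ ((γ σ).1 0) x) := by
  have := infinite_of_hilb hK
  have hfin := tower_finite W p hp (Finite.of_equiv _ e₀.symm.toEquiv)
  exact Pool.Agent.TH377.IG.tower_spec (Pool.Agent.TH377.IG.spec_hilb hK) W p
    (fun i M _ _ _ _ ε => (hp i).rsk K M ε) L e₀

end Pool.Agent.H789.NK
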