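import Pool.Agent.R70.MA.NormOne
import Pool.Agent.TH444.ML.Real
import Pool.Agent.H789.NK.Main

/-!
# Groups of the class `Steps` with small faithful permutation representations
-/

set_option autoImplicit false

namespace Pool.Agent.H789.NK

open Pool.Agent.H391R2 (Wr)
open Pool.Agent.TH444.TW (Cls)
open Pool.Agent.TH444.ML (TwW TwP instTwW limEquiv limEquiv_inj limEquiv_surj cls_id Gal
  fd_of_finite_aut)

theorem steps_TwP (K : Type) [Field K] {G₀ H : Type} [Group G₀] [Group H] [Finite H]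
    (p : H →* G₀) (hp : Steps K p) : ∀ i, Steps K (TwP p i)
  | 0 => hp
  | _ + 1 => Steps.old _ (cls_id K H)

theorem gal_of_steps (K : Type) [Field K] [NumberField K]
    (L : Type) [Field L] [Algebra K L] [FiniteDimensional K L] [IsGalois K L]
    (H : Type) [Group H] [Finite H] (p : H →* (L ≃ₐ[K] L)) (hp : Steps K p) :
    (Gal K (AlgebraicClosure K) H).Nonempty := by
  obtain ⟨F, _, _, _, _, hg, γ, -, -⟩ := steps_hilb
    (Pool.Agent.H391R2.T4.hilb_numberField K) (TwW (L ≃ₐ[K] L) H) (TwP p) (steps_TwP K p hp) L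
    (MulEquiv.refl _)
  let e : (F ≃ₐ[K] F) ≃* H := γ.trans
    (MulEquiv.ofBijective (limEquiv p) ⟨limEquiv_inj p, limEquiv_surj p⟩)
  have hfin : Finite (F ≃ₐ[K] F) := Finite.of_equiv H e.symm.toEquiv
  have hfd : FiniteDimensional K F := fd_of_finite_aut K F
  exact Pool.Agent.R70.MA.gal_nonempty_of K (AlgebraicClosure K) F H e

theorem cls_iso (K : Type) [Field K] {W W' : Type} [Group W] [Group W'] (e : W' ≃* W) :
    Cls K e.toMonoidHom := by
  have h1 : ∀ x, e.toMonoidHom x = 1 → x = 1 := by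
    intro x hx
    have h2 : e x = 1 := hx
    exact (map_eq_one_iff e e.injective).1 h2
  refine Cls.abelian _ e.symm.toMonoidHom (fun w => e.apply_symm_apply w) ?_ ?_
  · have : Subsingleton e.toMonoidHom.ker := by
      refine ⟨fun a b => Subtype.ext ?_⟩
      rw [h1 a.1 a.2, h1 b.1 b.2]
    exact Finite.of_subsingleton
  · intro x y hx hy
    rw [h1 x hx, h1 y hy]

/-- Steps above a Galois group. -/
theorem gal_above (K : Type) [Field K] [NumberField K] (W : Type) [Group W] [Finite W]
    (hW : ∃ (L : Type) (_ : Field L) (_ : Algebra K L), IsGalois K L ∧ Nonempty (W ≃* (L ≃ₐ[K] L)))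
    (H : Type) [Group H] (p : H →* W) (hp : Steps K p) :
    Finite H ∧ (Gal K (AlgebraicClosure K) H).Nonempty := by
  have hH : Finite H := hp.finite
  obtain ⟨L, i1, i2, i3, ⟨e⟩⟩ := hW
  have hfin : Finite (L ≃ₐ[K] L) := Finite.of_equiv W e.toEquiv
  have hfd : FiniteDimensional K L := fd_of_finite_aut K L
  exact ⟨hH, gal_of_steps K L H (e.toMonoidHom.comp p)
    (Steps.comp e.toMonoidHom p (Steps.old _ (cls_iso K e)) hp)⟩

/-- Core-free subgroups of extensions with kernel a direct power. -/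
theorem core_pow {N W H : Type} [Group N] [Finite N] [Group W] [Finite W] [Group H] [Finite H]
    (k : ℕ) (p : H →* W) (hp : Function.Surjective p) (ι : (Fin k → N) →* H)
    (hι : Function.Injective ι) (hr : ι.range = p.ker) (U : Subgroup N) (hU : U.normalCore = ⊥) :
    ∃ V : Subgroup H, V.normalCore = ⊥ ∧ V.index = U.index ^ k * Nat.card W := by
  classical
  let P : Subgroup (Fin k → N) := Subgroup.pi Set.univ (fun _ => U)
  have hP : ∀ x, x ∈ P ↔ ∀ i, x i ∈ U := fun x => by
    simp only [P, Subgroup.mem_pi, Set.mem_univ, forall_true_left]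
  refine ⟨P.map ι, ?_, ?_⟩
  · rw [eq_bot_iff]
    intro y hy
    obtain ⟨x, hx, rfl⟩ := (Subgroup.normalCore_le _) hy
    have hx' : ∀ i, x i ∈ U.normalCore := by
      intro i w
      have h1 := hy (ι (Pi.mulSingle i w))
      rw [← map_mul, ← map_inv, ← map_mul] at h1
      obtain ⟨v, hv, hvw⟩ := h1
      have h2 := hι hvw
      have h3 := (hP v).1 hv i
      rw [h2] at h3
      simpa using h3
    have hx1 : x = 1 := by
      funext i
      have h4 := hx' i
      rw [hU, Subgroup.mem_bot] at h4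
      exact h4
    rw [hx1, map_one]
    exact Subgroup.one_mem _
  · have hPc : Nat.card P = Nat.card U ^ k := by
      let f : P ≃ (Fin k → U) :=
        { toFun := fun x i => ⟨x.1 i, (hP x.1).1 x.2 i⟩
          invFun := fun y => ⟨fun i => (y i).1, (hP _).2 fun i => (y i).2⟩
          left_inv := fun _ => rfl
          right_inv := fun _ => rfl }
      rw [Nat.card_congr f, Nat.card_fun]
      simp
    have h1 : Nat.card P * P.index = Nat.card N ^ k := by
      rw [Subgroup.card_mul_index, Nat.card_fun]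
      simp
    have h2 : Nat.card U * U.index = Nat.card N := Subgroup.card_mul_index U
    have h3 : P.index = U.index ^ k := by
      rw [hPc, ← h2, mul_pow] at h1
      exact Nat.eq_of_mul_eq_mul_left (pow_pos Nat.card_pos k) h1
    rw [Subgroup.index_map_of_injective _ hι, h3, hr, Subgroup.index_ker,
      MonoidHom.range_eq_top.2 hp, Subgroup.card_top]

theorem small_pow {N W H : Type} [Group N] [Finite N] [Group W] [Finite W] [Group H] [Finite H]
    (k : ℕ) (hk : 1 ≤ k) (p : H →* W) (hp : Function.Surjective p) (ι : (Fin k → N) →* H)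
    (hι : Function.Injective ι) (hr : ι.range = p.ker) (U : Subgroup N) (hU : U.normalCore = ⊥)
    (hc : 16 * Nat.card W * U.index ^ 2 ≤ Nat.card N) :
    ∃ V : Subgroup H, V.normalCore = ⊥ ∧ 8 * V.index * (V.index + 1) ≤ Nat.card H := by
  obtain ⟨V, hV, hi⟩ := core_pow k p hp ι hι hr U hU
  refine ⟨V, hV, ?_⟩
  have hw : 1 ≤ Nat.card W := Nat.card_pos
  have hH : Nat.card H = Nat.card N ^ k * Nat.card W := by
    have h1 : Nat.card ι.range * ι.range.index = Nat.card H := Subgroup.card_mul_index _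
    rw [← h1]
    congr 1
    · rw [← Nat.card_congr (MonoidHom.ofInjective hι).toEquiv, Nat.card_fun]
      simp
    · rw [hr, Subgroup.index_ker, MonoidHom.range_eq_top.2 hp, Subgroup.card_top]
  have hV1 : 1 ≤ V.index := Nat.one_le_iff_ne_zero.2 Subgroup.index_ne_zero_of_finite
  have h1 : 8 * V.index * (V.index + 1) ≤ 16 * V.index ^ 2 := by nlinarith
  refine h1.trans ?_
  rw [hi, hH]
  have h2 : (16 * Nat.card W * U.index ^ 2) ^ k ≤ Nat.card N ^ k := Nat.pow_le_pow_left hc k
  have h3 : 16 * Nat.card W ≤ (16 * Nat.card W) ^ k := Nat.le_self_pow (by omega) _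
  calc 16 * (U.index ^ k * Nat.card W) ^ 2
      = (16 * Nat.card W) * (U.index ^ 2) ^ k * Nat.card W := by ring
    _ ≤ (16 * Nat.card W) ^ k * (U.index ^ 2) ^ k * Nat.card W := by gcongr
    _ = (16 * Nat.card W * U.index ^ 2) ^ k * Nat.card W := by rw [← mul_pow]
    _ ≤ Nat.card N ^ k * Nat.card W := Nat.mul_le_mul_right _ h2

/-- Twisted powers of the norm-one subgroup. -/
theorem small_normOne {W H : Type} [Group W] [Finite W] [Group H] [Finite H]
    (A : Type) [Group A] [Finite A] (n : ℕ)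
    (hn : ((3 * (Nat.card A * Nat.card W) + 2).factorial) ^ 3 ≤ n) (p : H →* W)
    (hp : IsNormOnePower A n p) (hc : ¬ Function.Injective p) :
    ∃ V : Subgroup H, V.normalCore = ⊥ ∧ 8 * V.index * (V.index + 1) ≤ Nat.card H := by
  have hf : Finite (Pool.Agent.R70.MA.NW A n) := Pool.Agent.R70.MA.finite_nw A n
  have h1 : 1 ≤ Nat.card A * Nat.card W := Nat.mul_pos Nat.card_pos Nat.card_pos
  have h2 := Nat.self_le_factorial (3 * (Nat.card A * Nat.card W) + 2)
  have h3 : (3 * (Nat.card A * Nat.card W) + 2).factorial ≤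
      (3 * (Nat.card A * Nat.card W) + 2).factorial ^ 3 := Nat.le_self_pow (by omega) _
  have h4 : (5 : ℕ).factorial ≤ (3 * (Nat.card A * Nat.card W) + 2).factorial :=
    Nat.factorial_le (by omega)
  have h5 : (5 : ℕ).factorial = 120 := rfl
  have h6 : 3 * (Nat.card A * Nat.card W) ≤ n := by omega
  have h7 : 8 ≤ n := by omega
  obtain ⟨U, hU, hi⟩ := Pool.Agent.R70.MA.core A n (by omega)
  obtain ⟨k, ψ, ι', s, hι', hr', hs, -⟩ := hp
  let ι : (Fin k → Pool.Agent.R70.MA.NW A n) →* H := ι'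
  have hι : Function.Injective ι := hι'
  have hr : ι.range = p.ker := hr'
  have hk : 1 ≤ k := by
    rcases Nat.eq_zero_or_pos k with rfl | hk
    · exfalso
      apply hc
      rw [← MonoidHom.ker_eq_bot_iff, ← hr, eq_bot_iff]
      rintro _ ⟨x, rfl⟩
      rw [Subgroup.mem_bot, Subsingleton.elim x 1, map_one]
    · exact hk
  refine small_pow k hk p (fun w => ⟨s w, hs w⟩) ι hι hr U hU ?_
  rw [hi]
  have h8 : 16 * Nat.card W * (Nat.card A * n) ^ 2 ≤ 8 * n ^ 2 * (n ^ 2 + 1) := by
    have hw : Nat.card W ≤ Nat.card W ^ 2 := Nat.le_self_pow (by omega) _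
    calc 16 * Nat.card W * (Nat.card A * n) ^ 2 ≤ 16 * Nat.card W ^ 2 * (Nat.card A * n) ^ 2 := by
          gcongr
      _ = 16 * (Nat.card A * Nat.card W) ^ 2 * n ^ 2 := by ring
      _ ≤ 8 * (3 * (Nat.card A * Nat.card W)) ^ 2 * n ^ 2 := by
          gcongr ?_ * n ^ 2
          nlinarith
      _ ≤ 8 * n ^ 2 * n ^ 2 := by gcongr
      _ ≤ 8 * n ^ 2 * (n ^ 2 + 1) := Nat.mul_le_mul_left _ (Nat.le_succ _)
  exact h8.trans ((Pool.Agent.R70.MA.fact_bound n h7).trans (Pool.Agent.R70.MA.card_ge A n))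

end Pool.Agent.H789.NK
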